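import Mathlib
import Pool.Agent.Lib.MR2.Top2

/-!
# Both values of the Möbius function in intervals shorter than the square root

Theorem (`result`): there is an absolute constant `κ > 0` such that for every residue class `a mod q` that
contains squarefree integers (i.e. `gcd(a, q)` is squarefree) and all real `t ≥ t₀(q, a)` the interval
`(t, t + √t / (log t)^κ)` contains integers `n ≡ a mod q` with `μ(n) = 1` and integers `n ≡ a mod q`
with `μ(n) = -1`.

Corollaries: `oppermann`: for large `x` every interval of length `x / (log x)^κ` that begins in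
`[x² - x, x² + x]` contains such integers; `rough`: they can be chosen without prime factors `≤ z`;
`liouville`: both parities of the number `Ω(n)` of prime factors in every residue class.

Outline of the proof.  The other classes follow from those with `a, q` coprime.  Suppose that `μ` does
not take both values on the integers `≡ a mod q` in `I = (t, t + c √t)`, `c = (log t)^(-κ)`, and let `R`
be a small power of `log t`.
* Linking: let `n ≡ a mod q` be near `R √t`, with `t / n` just above an integer `≡ 1`, and such that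
  `n` and `n + g` (`g` a small multiple of `q`) have no factor `p²` with `p ≤ (log t)^(2/5)`.  For almost
  all such `n` four products of the shape `n₁ (d m₁)`, `b₂ p m₁`, `n₂ (d m₂)`, `b₁ p m₂`, where
  `n = b₁ n₁`, `n + g = b₂ n₂`, lie in `I`, are `≡ a mod q` and squarefree; hence `λ(n) = λ(n + g)`.
  A second moment over the links, with equidistribution of `⌊t / n⌋` modulo small numbers, finds them
  outside of a set of `n` whose density is a negative power of `log t`.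
* So `λ` has constant sign on the squarefree `n ≡ a mod q` in more windows of length a power of `log t`
  than the theorem of Matomäki and Radziwiłł allows, in a form with a power of the logarithm which is
  proved in the library for `λ` times Dirichlet characters, with all its ingredients (Vinogradov's mean
  value theorem, the resulting bound near the line `Re s = 1`, Halász's theorem with a power of the
  logarithm, moments, large values of prime polynomials).
-/

set_option autoImplicit false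

namespace Pool.Agent.Results.MP_bf4c7f_nt.MobiusBelowRoot

open ArithmeticFunction

/-- **Main result.** -/
theorem result : ∃ κ : ℝ, 0 < κ ∧ ∀ q a : ℕ, 1 ≤ q → Squarefree (a.gcd q) →
    ∃ t₀ : ℝ, ∀ t : ℝ, t₀ ≤ t →
      (∃ n : ℕ, t < n ∧ (n : ℝ) < t + Real.sqrt t / (Real.log t) ^ κ ∧ n ≡ a [MOD q] ∧
        moebius n = 1) ∧
      (∃ n : ℕ, t < n ∧ (n : ℝ) < t + Real.sqrt t / (Real.log t) ^ κ ∧ n ≡ a [MOD q] ∧
        moebius n = -1) :=
  Pool.Agent.MR2.finalM_classes_all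

/-- **Sifted integers.**  The same with the condition that `n` has no prime factor `≤ z`. -/
theorem rough : ∃ κ : ℝ, 0 < κ ∧ ∀ z : ℕ, ∃ t₀ : ℝ, ∀ t : ℝ, t₀ ≤ t →
    (∃ n : ℕ, t < n ∧ (n : ℝ) < t + Real.sqrt t / (Real.log t) ^ κ ∧
      (∀ p : ℕ, p.Prime → p ∣ n → z < p) ∧ moebius n = 1) ∧
    (∃ n : ℕ, t < n ∧ (n : ℝ) < t + Real.sqrt t / (Real.log t) ^ κ ∧
      (∀ p : ℕ, p.Prime → p ∣ n → z < p) ∧ moebius n = -1) := by
  obtain ⟨κ, hκ, h⟩ := result
  refine ⟨κ, hκ, fun z => ?_⟩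
  obtain ⟨t₀, h⟩ := h z.factorial 1 (Nat.factorial_pos z) (by rw [Nat.gcd_one_left]; exact squarefree_one)
  have hcop : ∀ n : ℕ, n ≡ 1 [MOD z.factorial] → ∀ p : ℕ, p.Prime → p ∣ n → z < p := by
    intro n hn p hp hpn
    by_contra hle
    push Not at hle
    have h1 : p ∣ z.factorial := (hp.dvd_factorial).2 hle
    have h2 : n ≡ 1 [MOD p] := hn.of_dvd h1
    have h3 : p ∣ 1 := (h2.dvd_iff dvd_rfl).1 hpn
    exact hp.one_lt.ne' (Nat.dvd_one.1 h3)
  refine ⟨t₀, fun t ht => ?_⟩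
  obtain ⟨⟨n, n1, n2, n3, n4⟩, ⟨m, m1, m2, m3, m4⟩⟩ := h t ht
  exact ⟨⟨n, n1, n2, hcop n n3, n4⟩, ⟨m, m1, m2, hcop m m3, m4⟩⟩

/-- **Both parities of `Ω`.**  Every residue class, coprime or not. -/
theorem liouville : ∃ κ : ℝ, 0 < κ ∧ ∀ q a : ℕ, 1 ≤ q → ∃ t₀ : ℝ, ∀ t : ℝ, t₀ ≤ t →
    (∃ n : ℕ, t < n ∧ (n : ℝ) < t + Real.sqrt t / (Real.log t) ^ κ ∧ n ≡ a [MOD q] ∧
      Even (cardFactors n)) ∧
    (∃ n : ℕ, t < n ∧ (n : ℝ) < t + Real.sqrt t / (Real.log t) ^ κ ∧ n ≡ a [MOD q] ∧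
      Odd (cardFactors n)) :=
  Pool.Agent.MR2.final2_all

/-- From `(t, t + √t / (log t)^κ)`, `t` large, to the intervals of length `x / (log x)^κ` that begin in
`[x² - x, x² + x]`. -/
theorem opp_of {κ : ℝ} (hκ : 0 < κ) {P : ℕ → Prop} {t₀ : ℝ}
    (h : ∀ t : ℝ, t₀ ≤ t → ∃ n : ℕ, t < n ∧ (n : ℝ) < t + Real.sqrt t / (Real.log t) ^ κ ∧ P n) :
    ∃ x₀ : ℕ, ∀ x : ℕ, x₀ ≤ x → ∀ y : ℝ, (x : ℝ) ^ 2 - x ≤ y → y ≤ (x : ℝ) ^ 2 + x →
      ∃ n : ℕ, y < n ∧ (n : ℝ) < y + x / (Real.log x) ^ κ ∧ P n := by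
  have hg : 0 < (3 / 2 : ℝ) ^ κ - 1 := by
    have := Real.one_lt_rpow (by norm_num : (1 : ℝ) < 3 / 2) hκ
    linarith
  refine ⟨max (max 10 (⌈t₀⌉₊ + 1)) (⌈1 / ((3 / 2 : ℝ) ^ κ - 1)⌉₊), fun x hx y hy1 hy2 => ?_⟩
  have hx10 : 10 ≤ x := ((le_max_left _ _).trans (le_max_left _ _)).trans hx
  have hxt : ⌈t₀⌉₊ + 1 ≤ x := ((le_max_right _ _).trans (le_max_left _ _)).trans hx
  have hxg : ⌈1 / ((3 / 2 : ℝ) ^ κ - 1)⌉₊ ≤ x := (le_max_right _ _).trans hx
  have hxr : (10 : ℝ) ≤ x := by exact_mod_cast hx10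
  have hxg' : 1 / ((3 / 2 : ℝ) ^ κ - 1) ≤ x := (Nat.le_ceil _).trans (by exact_mod_cast hxg)
  have hxg2 : 1 ≤ x * ((3 / 2 : ℝ) ^ κ - 1) := by rwa [div_le_iff₀ hg] at hxg'
  have hyt : t₀ ≤ y := by
    have h1 : t₀ ≤ ⌈t₀⌉₊ := Nat.le_ceil _
    have h2 : ((⌈t₀⌉₊ + 1 : ℕ) : ℝ) ≤ x := by exact_mod_cast hxt
    push_cast at h2
    nlinarith
  obtain ⟨n, h1, h2, h3⟩ := h y hyt
  refine ⟨n, h1, h2.trans_le ?_, h3⟩
  have hy0 : 0 < y := by nlinarith
  have hs : Real.sqrt y ≤ x + 1 / 2 := by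
    rw [Real.sqrt_le_left (by linarith)]
    nlinarith
  have hlx : 0 < Real.log x := Real.log_pos (by linarith)
  have hl2 : Real.log 2 ≤ 1 / 2 * Real.log x := by
    have h4 : Real.log ((2 : ℝ) ^ 2) ≤ Real.log x := Real.log_le_log (by norm_num) (by linarith)
    rw [Real.log_pow] at h4
    push_cast at h4
    linarith
  have hly : 3 / 2 * Real.log x ≤ Real.log y := by
    have h4 : Real.log ((x : ℝ) ^ 2 / 2) ≤ Real.log y :=
      Real.log_le_log (by positivity) (by nlinarith)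
    rw [Real.log_div (by positivity) (by norm_num), Real.log_pow] at h4
    push_cast at h4
    linarith
  have hpow : (3 / 2 : ℝ) ^ κ * (Real.log x) ^ κ ≤ (Real.log y) ^ κ := by
    rw [← Real.mul_rpow (by norm_num) hlx.le]
    exact Real.rpow_le_rpow (by positivity) hly hκ.le
  have hp0 : 0 < (Real.log x) ^ κ := Real.rpow_pos_of_pos hlx _
  have hp1 : 0 < (3 / 2 : ℝ) ^ κ := Real.rpow_pos_of_pos (by norm_num) _
  have hfin : Real.sqrt y / (Real.log y) ^ κ ≤ x / (Real.log x) ^ κ := by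
    calc Real.sqrt y / (Real.log y) ^ κ
        ≤ (x + 1 / 2) / ((3 / 2 : ℝ) ^ κ * (Real.log x) ^ κ) := by
          apply div_le_div₀ (by positivity) hs (by positivity) hpow
      _ ≤ (x * (3 / 2 : ℝ) ^ κ) / ((3 / 2 : ℝ) ^ κ * (Real.log x) ^ κ) := by
          apply div_le_div_of_nonneg_right _ (by positivity)
          nlinarith
      _ = x / (Real.log x) ^ κ := by
          field_simp
  linarith

/-- **Inside of Oppermann's intervals.**  For every residue class `a mod q` that contains squarefree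
integers and all large integers `x`, every interval of length `x / (log x)^κ` that begins in
`[x² - x, x² + x]` contains integers `n ≡ a mod q` with `μ(n) = 1` and with `μ(n) = -1`. -/
theorem oppermann : ∃ κ : ℝ, 0 < κ ∧ ∀ q a : ℕ, 1 ≤ q → Squarefree (a.gcd q) →
    ∃ x₀ : ℕ, ∀ x : ℕ, x₀ ≤ x → ∀ y : ℝ, (x : ℝ) ^ 2 - x ≤ y → y ≤ (x : ℝ) ^ 2 + x →
      (∃ n : ℕ, y < n ∧ (n : ℝ) < y + x / (Real.log x) ^ κ ∧ n ≡ a [MOD q] ∧ moebius n = 1) ∧
      (∃ n : ℕ, y < n ∧ (n : ℝ) < y + x / (Real.log x) ^ κ ∧ n ≡ a [MOD q] ∧ moebius n = -1) := by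
  obtain ⟨κ, hκ, h⟩ := result
  refine ⟨κ, hκ, fun q a hq ha => ?_⟩
  obtain ⟨t₀, h⟩ := h q a hq ha
  obtain ⟨x₁, h1⟩ := opp_of (P := fun n => n ≡ a [MOD q] ∧ moebius n = 1) hκ fun t ht => (h t ht).1
  obtain ⟨x₂, h2⟩ := opp_of (P := fun n => n ≡ a [MOD q] ∧ moebius n = -1) hκ fun t ht => (h t ht).2
  exact ⟨max x₁ x₂, fun x hx y hy1 hy2 =>
    ⟨h1 x ((le_max_left _ _).trans hx) y hy1 hy2, h2 x ((le_max_right _ _).trans hx) y hy1 hy2⟩⟩

end Pool.Agent.Results.MP_bf4c7f_nt.MobiusBelowRoot
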