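import Mathlib
import Pool.Agent.Lib.MRAP.Top70

/-!
# Both parities of the number of prime factors in every residue class in `(t, t + c √t)`

Theorem (`result`): for all residues `b mod q` and every `c > 0` there is `t₀` such that for all real `t ≥ t₀`
the interval `(t, t + c √t)` contains at least `√t / (log t)^(7/10)` integers `n ≡ b mod q` whose number `Ω(n)`
of prime factors (counted with multiplicity) is even, and at least as many for which it is odd: more than the
expected number `c √t / log t` of primes.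

Corollaries: `oppermann`: for all large integers `x` each of Oppermann's intervals `(x² - x, x²)` and
`(x², x² + x)` contains at least `x / (3 log x)^(7/10)` integers `n ≡ b mod q` of either kind; `rough`
(`q = z!`, `b = 1`): the same with the condition that all prime factors of `n` exceed `z`.

Outline of the proof.  Let `b` be coprime to `q` (the other classes follow from the completely
multiplicative structure), `R` a large constant, and suppose that `Ω` has constant parity on the integers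
`≡ b mod q` in `I = (t, t + c √t)` outside of a small set.
* Linking: for almost all `n ≡ b mod q` near `R √t` with `M = ⌊t / n⌋ ≡ 1 mod q` and fractional part of
  `t / n` less than `c² / (200 q)`, there are primes `b₁ ∣ n`, `b₂ ∣ n + q` and `d = ± (b₁ w - b₂ w')`,
  `d ∣ b₁ M + w' D`, `d ∣ b₂ M + w D`, `q ∣ D`, such that the four integers `n₁ (d m₁)`, `b₂ p m₁`,
  `n₂ (d m₂)`, `b₁ p m₂` lie in `I` and are `≡ b mod q`, where `n = b₁ n₁`, `n + q = b₂ n₂`,
  `d m₁ = b₁ M + w' D`, `d m₂ = b₂ M + w D`, `d n ± b₁ w q = b₁ b₂ p`; hence `Ω(n) ≡ Ω(n + q)` mod 2.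
  A second moment over `D`, `w`, `w'` finds them for almost all `M`.
* So `Ω` has constant parity on the class `b mod q` in most of a positive proportion of intervals of
  length `h`, `h` large but fixed.  This contradicts the theorem of Matomäki and Radziwiłł on multiplicative
  functions in almost all intervals of bounded length, which is proved in the library for the products of the
  Liouville function with Dirichlet characters, with all its ingredients (Halász's theorem, moments,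
  sparse large values of prime polynomials, bounds near the 1-line).
* The exceptional set: the number of factorisations `u v`, `u` of the size `√t`, of `n = u₀ v₀` is at most
  that of the pairs of divisors `a ∣ u₀`, `b ∣ v₀` of about the same size, which is at most
  `(log t)^(log 2 + ε)` for almost all `u₀`, `v₀` (Turán's theorem and a mean value with the weight
  `2^(-Ω)`).
-/

set_option autoImplicit false

namespace Pool.Agent.Results.MP_bf4c7f_nt.ParityOppermann

open ArithmeticFunction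

/-- **Main result.** -/
theorem result : ∀ (q b : ℕ) (c : ℝ), 1 ≤ q → 0 < c → ∃ t₀ : ℝ, ∀ t : ℝ, t₀ ≤ t →
    Real.sqrt t / (Real.log t) ^ (7 / 10 : ℝ) ≤
      ({n : ℕ | t < n ∧ (n : ℝ) < t + c * Real.sqrt t ∧ n ≡ b [MOD q] ∧
        Even (cardFactors n)}.ncard : ℝ) ∧
    Real.sqrt t / (Real.log t) ^ (7 / 10 : ℝ) ≤
      ({n : ℕ | t < n ∧ (n : ℝ) < t + c * Real.sqrt t ∧ n ≡ b [MOD q] ∧
        Odd (cardFactors n)}.ncard : ℝ) := by
  intro q b c hq hc
  exact Pool.Agent.MRAP.result70_of Pool.Agent.MRAP.finalA70_all q b c hq hc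

/-- **Sifted integers.**  The same with the condition that `n` has no prime factor `≤ z`. -/
theorem rough : ∀ (c : ℝ) (z : ℕ), 0 < c → ∃ t₀ : ℝ, ∀ t : ℝ, t₀ ≤ t →
    Real.sqrt t / (Real.log t) ^ (7 / 10 : ℝ) ≤
      ({n : ℕ | t < n ∧ (n : ℝ) < t + c * Real.sqrt t ∧ (∀ p : ℕ, p.Prime → p ∣ n → z < p) ∧
        Even (cardFactors n)}.ncard : ℝ) ∧
    Real.sqrt t / (Real.log t) ^ (7 / 10 : ℝ) ≤
      ({n : ℕ | t < n ∧ (n : ℝ) < t + c * Real.sqrt t ∧ (∀ p : ℕ, p.Prime → p ∣ n → z < p) ∧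
        Odd (cardFactors n)}.ncard : ℝ) := by
  intro c z hc
  obtain ⟨t₀, h⟩ := result z.factorial 1 c (Nat.factorial_pos z) hc
  refine ⟨t₀, fun t ht => ?_⟩
  have hcop : ∀ n : ℕ, n ≡ 1 [MOD z.factorial] → ∀ p : ℕ, p.Prime → p ∣ n → z < p := by
    intro n hn p hp hpn
    by_contra hle
    push Not at hle
    have h1 : p ∣ z.factorial := (hp.dvd_factorial).2 hle
    have h2 : n ≡ 1 [MOD p] := hn.of_dvd h1
    have h3 : p ∣ 1 := (h2.dvd_iff dvd_rfl).1 hpn
    exact hp.one_lt.ne' (Nat.dvd_one.1 h3)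
  have hfin : ∀ P : ℕ → Prop, {n : ℕ | t < n ∧ (n : ℝ) < t + c * Real.sqrt t ∧
      (∀ p : ℕ, p.Prime → p ∣ n → z < p) ∧ P n}.Finite := by
    intro P
    refine (Set.finite_Iic ⌊t + c * Real.sqrt t⌋₊).subset ?_
    intro n hn
    exact Nat.le_floor hn.2.1.le
  obtain ⟨h1, h2⟩ := h t ht
  constructor
  · refine h1.trans ?_
    exact_mod_cast Set.ncard_le_ncard (fun n hn => by
      obtain ⟨q1, q2, q3, q4⟩ := hn
      exact ⟨q1, q2, hcop n q3, q4⟩) (hfin _)
  · refine h2.trans ?_
    exact_mod_cast Set.ncard_le_ncard (fun n hn => by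
      obtain ⟨q1, q2, q3, q4⟩ := hn
      exact ⟨q1, q2, hcop n q3, q4⟩) (hfin _)

/-- **Oppermann's intervals.**  For all residues `b mod q` and all large integers `x`, each of the intervals
`(x² - x, x²)` and `(x², x² + x)` contains at least `x / (3 log x)^(7/10)` integers `n ≡ b mod q`
with `Ω(n)` even, and at least as many with `Ω(n)` odd. -/
theorem oppermann : ∀ q b : ℕ, 1 ≤ q → ∃ x₀ : ℕ, ∀ x : ℕ, x₀ ≤ x → ∀ a : ℕ, (a = x ^ 2 - x ∨ a = x ^ 2) →
    (x : ℝ) / (3 * Real.log x) ^ (7 / 10 : ℝ) ≤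
      ({n : ℕ | a < n ∧ n < a + x ∧ n ≡ b [MOD q] ∧
        Even (cardFactors n)}.ncard : ℝ) ∧
    (x : ℝ) / (3 * Real.log x) ^ (7 / 10 : ℝ) ≤
      ({n : ℕ | a < n ∧ n < a + x ∧ n ≡ b [MOD q] ∧
        Odd (cardFactors n)}.ncard : ℝ) := by
  intro q b hq
  obtain ⟨t₀, h⟩ := result q b 1 hq one_pos
  refine ⟨max 10 (⌈t₀⌉₊ + 1), fun x hx a ha => ?_⟩
  have hx10 : 10 ≤ x := (le_max_left _ _).trans hx
  have hxt : ⌈t₀⌉₊ + 1 ≤ x := (le_max_right _ _).trans hx
  have hxr : (10 : ℝ) ≤ x := by exact_mod_cast hx10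
  have hsub : x ≤ x ^ 2 := by nlinarith
  -- `a` lies between `(x - 1)²` and `x²`
  have ha1 : ((x : ℝ) - 1) ^ 2 ≤ a := by
    rcases ha with ha | ha
    · rw [ha, Nat.cast_sub hsub]; push_cast; nlinarith
    · rw [ha]; push_cast; nlinarith
  have ha2 : (a : ℝ) ≤ (x : ℝ) ^ 2 := by
    rcases ha with ha | ha
    · rw [ha, Nat.cast_sub hsub]; push_cast; nlinarith
    · rw [ha]; push_cast; exact le_rfl
  have hat : t₀ ≤ a := by
    have h1 : t₀ ≤ ⌈t₀⌉₊ := Nat.le_ceil _
    have h2 : ((⌈t₀⌉₊ + 1 : ℕ) : ℝ) ≤ x := by exact_mod_cast hxt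
    push_cast at h2
    nlinarith
  have hs1 : (x : ℝ) - 1 ≤ Real.sqrt a := Real.le_sqrt_of_sq_le ha1
  have hs2 : Real.sqrt a ≤ x := by
    rw [show (x : ℝ) = Real.sqrt ((x : ℝ) ^ 2) by rw [Real.sqrt_sq (by positivity)]]
    exact Real.sqrt_le_sqrt ha2
  have ha81 : (81 : ℝ) ≤ a := by nlinarith
  have hlog0 : 0 < Real.log a := Real.log_pos (by linarith)
  have hlogx : 0 < Real.log x := Real.log_pos (by linarith)
  have hlog : Real.log a ≤ 2 * Real.log x := by
    have := Real.log_le_log (by linarith : (0 : ℝ) < a) ha2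
    rw [Real.log_pow] at this
    exact_mod_cast this
  have hmain : (x : ℝ) / (3 * Real.log x) ^ (7 / 10 : ℝ) ≤
      Real.sqrt a / (Real.log a) ^ (7 / 10 : ℝ) := by
    have e1 : (Real.log a) ^ (7 / 10 : ℝ) ≤ (2 * Real.log x) ^ (7 / 10 : ℝ) :=
      Real.rpow_le_rpow hlog0.le hlog (by norm_num)
    have e2 : (3 * Real.log x) ^ (7 / 10 : ℝ) = (3 / 2 : ℝ) ^ (7 / 10 : ℝ) * (2 * Real.log x) ^ (7 / 10 : ℝ) := by
      rw [← Real.mul_rpow (by norm_num) (by positivity)]
      congr 1; ring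
    have e3 : (10 / 9 : ℝ) ≤ (3 / 2 : ℝ) ^ (7 / 10 : ℝ) := by
      have h1 := Real.rpow_le_rpow_of_exponent_le (by norm_num : (1 : ℝ) ≤ 3 / 2)
        (by norm_num : (1 / 2 : ℝ) ≤ 7 / 10)
      rw [← Real.sqrt_eq_rpow] at h1
      have h2 : (10 / 9 : ℝ) ≤ Real.sqrt (3 / 2) := Real.le_sqrt_of_sq_le (by norm_num)
      exact h2.trans h1
    have e0 : 0 < (Real.log a) ^ (7 / 10 : ℝ) := Real.rpow_pos_of_pos hlog0 _
    have e4 : 0 < (2 * Real.log x) ^ (7 / 10 : ℝ) := Real.rpow_pos_of_pos (by positivity) _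
    rw [e2]
    calc (x : ℝ) / ((3 / 2 : ℝ) ^ (7 / 10 : ℝ) * (2 * Real.log x) ^ (7 / 10 : ℝ))
        ≤ (x : ℝ) / (10 / 9 * (2 * Real.log x) ^ (7 / 10 : ℝ)) := by
          apply div_le_div_of_nonneg_left (by positivity) (by positivity)
          exact mul_le_mul_of_nonneg_right e3 e4.le
      _ = (9 / 10 * x) / (2 * Real.log x) ^ (7 / 10 : ℝ) := by
          field_simp
      _ ≤ Real.sqrt a / (2 * Real.log x) ^ (7 / 10 : ℝ) := by
          apply div_le_div_of_nonneg_right _ e4.le
          linarith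
      _ ≤ Real.sqrt a / (Real.log a) ^ (7 / 10 : ℝ) :=
          div_le_div_of_nonneg_left (Real.sqrt_nonneg _) e0 e1
  obtain ⟨h1, h2⟩ := h a hat
  have hfin : ∀ P : ℕ → Prop, {n : ℕ | a < n ∧ n < a + x ∧
      n ≡ b [MOD q] ∧ P n}.Finite := by
    intro P
    exact (Set.finite_Iio (a + x)).subset fun n hn => hn.2.1
  constructor
  · refine hmain.trans (h1.trans ?_)
    exact_mod_cast Set.ncard_le_ncard (fun n hn => by
      obtain ⟨q1, q2, q3, q4⟩ := hn
      refine ⟨by exact_mod_cast q1, ?_, q3, q4⟩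
      have : (n : ℝ) < a + x := by linarith
      exact_mod_cast this) (hfin _)
  · refine hmain.trans (h2.trans ?_)
    exact_mod_cast Set.ncard_le_ncard (fun n hn => by
      obtain ⟨q1, q2, q3, q4⟩ := hn
      refine ⟨by exact_mod_cast q1, ?_, q3, q4⟩
      have : (n : ℝ) < a + x := by linarith
      exact_mod_cast this) (hfin _)

end Pool.Agent.Results.MP_bf4c7f_nt.ParityOppermann
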