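import Mathlib
import Pool.Agent.Lib.MP_bf4c7f_nt3.Small3
import Pool.Agent.Lib.MP_bf4c7f_nt3.RegA1
import Pool.Agent.Lib.MP_bf4c7f_nt3.RegA2
import Pool.Agent.Lib.MP_bf4c7f_nt3.FinB
import Pool.Agent.Lib.MP_bf4c7f_nt3.Mert

/-!
# Integers with at most three prime factors in the intervals of Oppermann's conjecture

For every integer `x > 1` every open interval `(a, a + x)` with `0 ≤ a ≤ x²` contains an integer
with at most three prime factors, counted with multiplicity.  In particular so do the two
intervals `(x² - x, x²)` and `(x², x² + x)` of Oppermann's conjecture.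
-/

set_option autoImplicit false

namespace Pool.Agent.Results.MP_bf4c7f_nt.ThreeFactors

open Pool.Agent.Lib.MP_bf4c7f

/-- **Main result.**  For all integers `x > 1` and `0 ≤ a ≤ x ^ 2` the open interval `(a, a + x)`
contains an integer with at most three prime factors, counted with multiplicity.  Oppermann's
intervals are those with `a = x ^ 2 - x` and `a = x ^ 2`. -/
theorem result (x a : ℕ) (hx : 1 < x) (ha : a ≤ x ^ 2) :
    ∃ n : ℕ, a < n ∧ n < a + x ∧ n.primeFactorsList.length ≤ 3 := by
  rcases le_or_gt x 168 with h | h
  · exact small3 x a hx h ha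
  · rcases lt_or_ge x (2 ^ 26) with h2 | h2
    · exact regA1 x a (by omega) h2 (by omega)
    · rcases lt_or_ge x (2 ^ 64) with h3 | h3
      · exact regA2 (fun n hn => (Ls_upper_1000 n hn).trans (by linarith)) x a h2 h3 (by omega)
      · exact regB3 x a ((Nat.pow_le_pow_right (by norm_num) (by norm_num)).trans h3) (by omega)

end Pool.Agent.Results.MP_bf4c7f_nt.ThreeFactors
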