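import Mathlib
import Pool.Agent.Lib.OX.Top2

/-!
# MP_bf4c7f_nt (Oppermann's conjecture): exactly `k` prime factors, at most `(log X)^C` exceptions

There is `C` such that for all `k ≥ 3`, all large `X` and all `0 < δ ≤ 1`, for all but at most
`8^k (log X)^C / δ^4` of the integers `x ≤ X`, every interval of length `δ x` inside
`(x² - x, x² + x)` contains at least `δ x / (2^k (log x)^C)` integers `n` with exactly `k` prime
factors counted with multiplicity.  More precisely `n = 2^(k-3) p q s` with primes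
`p ≤ (log x)^C` and `q, s ≥ δ x / (2^k (log x)^C)`.

Proof idea.  Suppose that many well spaced intervals `(y, y + h)`, `y ≈ N`, `h = δ √N`, contain
few `p q s`.  By Perron's formula (with Gaussian weights) each of them makes an integral of
`P(t) Q(t) E(t) y^(it)` over `|t| ≤ √N (log N)^4 / δ` large; here `P` is the polynomial over primes
`p ≈ (log N)^A`, `Q` the one over primes `q ≈ δ √N / (log N)^(A+4)`, and `E` the error term of the
polynomial over the long primes `s`.  Sum over the bad `y`.  The mean square of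
`Q(t) Σ_y c_y y^(it)` is controlled by counting pairs `q, q'` with `q'/q` close to `y'/y`; only the
ratios near fractions `a/b` with small `b` resonate, and for given `a/b` there is at most one `y'`
for each `y`.  Where `P` is small this finishes the proof.  The set where `P` is large is so sparse
that `E` is small there in mean square, by the Halász–Montgomery inequality, a zero density
estimate near the line `1` and the zero free region from Vinogradov's mean value theorem.
-/

set_option autoImplicit false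

namespace Pool.Agent.Results.MP_bf4c7f_nt.ThreePrimes

/-- There is `C > 0` such that for all `k ≥ 3`, all large `X` and all `0 < δ ≤ 1` all but at most
`8^k (log X)^C / δ^4` of the integers `1 < x ≤ X` have the property: every interval `(y, y + δ x)`
inside `(x² - x, x² + x)` contains at least `δ x / (2^k (log x)^C)` integers `n` with exactly `k`
prime factors counted with multiplicity, moreover `n = 2^(k-3) p q s` with primes
`p ≤ (log x)^C` and `q, s ≥ δ x / (2^k (log x)^C)`. -/
theorem result : ∃ C : ℝ, 0 < C ∧ ∃ X₀ : ℕ, ∀ (k X : ℕ) (δ : ℝ), 3 ≤ k → X₀ ≤ X →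
    0 < δ → δ ≤ 1 →
      ({x : ℕ | 1 < x ∧ x ≤ X ∧ ¬ ∀ y : ℝ, (x : ℝ) ^ 2 - x ≤ y →
          y + δ * x ≤ (x : ℝ) ^ 2 + x →
          δ * x / (2 ^ k * (Real.log x) ^ C) ≤
            ({n : ℕ | y < n ∧ (n : ℝ) < y + δ * x ∧ ArithmeticFunction.cardFactors n = k ∧
              ∃ p q s : ℕ, p.Prime ∧ q.Prime ∧ s.Prime ∧ (p : ℝ) ≤ (Real.log x) ^ C ∧
                δ * x / (2 ^ k * (Real.log x) ^ C) ≤ q ∧
                δ * x / (2 ^ k * (Real.log x) ^ C) ≤ s ∧
                n = 2 ^ (k - 3) * (p * q * s)}.ncard : ℝ)}.ncard : ℝ) ≤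
        8 ^ k * (Real.log X) ^ C / δ ^ 4 :=
  Pool.Agent.OX.finalV_all

/-- the exceptional set of Oppermann's two intervals for a given `k`. -/
private theorem one : ∃ C : ℝ, 0 < C ∧ ∃ X₀ : ℕ, ∀ (k X : ℕ), 3 ≤ k → X₀ ≤ X →
    ({x : ℕ | 1 < x ∧ x ≤ X ∧ ¬ (
        x / (2 ^ k * (Real.log x) ^ C) ≤ ({n : ℕ | x ^ 2 - x < n ∧ n < x ^ 2 ∧
          ArithmeticFunction.cardFactors n = k}.ncard : ℝ) ∧
        x / (2 ^ k * (Real.log x) ^ C) ≤ ({n : ℕ | x ^ 2 < n ∧ n < x ^ 2 + x ∧
          ArithmeticFunction.cardFactors n = k}.ncard : ℝ))}.ncard : ℝ) ≤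
      8 ^ k * (Real.log X) ^ C := by
  obtain ⟨C, hC, X₀, h⟩ := result
  refine ⟨C, hC, X₀, fun k X hk hX =>
    le_trans ?_ ((h k X 1 hk hX one_pos le_rfl).trans (le_of_eq (by norm_num)))⟩
  refine Nat.cast_le.mpr (Set.ncard_le_ncard ?_ ((Set.finite_Iic X).subset fun x hx => hx.2.1))
  rintro x ⟨hx1, hxX, hx⟩
  refine ⟨hx1, hxX, fun hgood => hx ?_⟩
  have hx0 : (0 : ℝ) < x := by exact_mod_cast (by omega : 0 < x)
  have hxx : x ≤ x ^ 2 := by nlinarith
  simp only [one_mul] at hgood
  have h1 := hgood ((x : ℝ) ^ 2 - x) le_rfl (by linarith)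
  have h2 := hgood ((x : ℝ) ^ 2) (by linarith) le_rfl
  refine ⟨h1.trans (Nat.cast_le.mpr (Set.ncard_le_ncard ?_
    ((Set.finite_Iic (x ^ 2)).subset fun n hn => hn.2.1.le))),
    h2.trans (Nat.cast_le.mpr (Set.ncard_le_ncard ?_
    ((Set.finite_Iic (x ^ 2 + x)).subset fun n hn => hn.2.1.le)))⟩
  · rintro n ⟨hn1, hn2, hn3, -⟩
    refine ⟨?_, ?_, hn3⟩
    · have h3 : ((x ^ 2 - x : ℕ) : ℝ) < n := by
        rw [Nat.cast_sub hxx]; push_cast; exact hn1
      exact_mod_cast h3
    · have h3 : (n : ℝ) < (x : ℝ) ^ 2 := by linarith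
      exact_mod_cast h3
  · rintro n ⟨hn1, hn2, hn3, -⟩
    exact ⟨by exact_mod_cast hn1, by exact_mod_cast hn2, hn3⟩

/-- Oppermann's two intervals, all `k` at once: for every `A` there is `C` such that for all but at
most `(log X)^C` of the integers `1 < x ≤ X` the following holds: for every `k` with
`3 ≤ k ≤ A log log x` both `(x² - x, x²)` and `(x², x² + x)` contain at least `x / (log x)^C`
integers with exactly `k` prime factors counted with multiplicity. -/
theorem oppermann (A : ℝ) (hA : 0 ≤ A) : ∃ C : ℝ, 0 < C ∧ ∃ X₀ : ℕ, ∀ X : ℕ, X₀ ≤ X →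
    ({x : ℕ | 1 < x ∧ x ≤ X ∧ ¬ ∀ k : ℕ, 3 ≤ k → (k : ℝ) ≤ A * Real.log (Real.log x) →
        x / (Real.log x) ^ C ≤ ({n : ℕ | x ^ 2 - x < n ∧ n < x ^ 2 ∧
          ArithmeticFunction.cardFactors n = k}.ncard : ℝ) ∧
        x / (Real.log x) ^ C ≤ ({n : ℕ | x ^ 2 < n ∧ n < x ^ 2 + x ∧
          ArithmeticFunction.cardFactors n = k}.ncard : ℝ)}.ncard : ℝ) ≤ (Real.log X) ^ C := by
  classical
  obtain ⟨C, hC, X₀, h⟩ := one
  set C' : ℝ := C + 3 * A + 2 with hC'
  refine ⟨C', by linarith, max X₀ ⌈Real.exp (A + 50)⌉₊, fun X hX => ?_⟩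
  have hX1 : X₀ ≤ X := (le_max_left _ _).trans hX
  have hX2 : Real.exp (A + 50) ≤ X :=
    (Nat.le_ceil _).trans (by exact_mod_cast (le_max_right _ _).trans hX)
  have hXpos : (0 : ℝ) < X := (Real.exp_pos _).trans_le hX2
  have hL : A + 50 ≤ Real.log X := by rwa [Real.le_log_iff_exp_le hXpos]
  set L := Real.log X with hLdef
  have hLpos : 0 < L := by linarith
  have hL1 : 1 ≤ L := by linarith
  set K : ℕ := ⌊A * Real.log L⌋₊ with hK
  have hll : 0 ≤ Real.log L := Real.log_nonneg hL1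
  have hKle : (K : ℝ) ≤ A * Real.log L := Nat.floor_le (mul_nonneg hA hll)
  set T : ℕ → Set ℕ := fun k => {x : ℕ | 1 < x ∧ x ≤ X ∧ ¬ (
        x / (2 ^ k * (Real.log x) ^ C) ≤ ({n : ℕ | x ^ 2 - x < n ∧ n < x ^ 2 ∧
          ArithmeticFunction.cardFactors n = k}.ncard : ℝ) ∧
        x / (2 ^ k * (Real.log x) ^ C) ≤ ({n : ℕ | x ^ 2 < n ∧ n < x ^ 2 + x ∧
          ArithmeticFunction.cardFactors n = k}.ncard : ℝ))} with hT
  have hTfin : ∀ k, (T k).Finite := fun k => (Set.finite_Iic X).subset fun x hx => hx.2.1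
  have hcov : {x : ℕ | 1 < x ∧ x ≤ X ∧ ¬ ∀ k : ℕ, 3 ≤ k →
        (k : ℝ) ≤ A * Real.log (Real.log x) →
        x / (Real.log x) ^ C' ≤ ({n : ℕ | x ^ 2 - x < n ∧ n < x ^ 2 ∧
          ArithmeticFunction.cardFactors n = k}.ncard : ℝ) ∧
        x / (Real.log x) ^ C' ≤ ({n : ℕ | x ^ 2 < n ∧ n < x ^ 2 + x ∧
          ArithmeticFunction.cardFactors n = k}.ncard : ℝ)} ⊆
      ((Finset.range 3 ∪ (Finset.Icc 3 K).biUnion fun k => (hTfin k).toFinset : Finset ℕ) :
        Set ℕ) := by
    rintro x ⟨hx1, hxX, hx⟩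
    rw [Finset.mem_coe]
    by_cases hx3 : x < 3
    · exact Finset.mem_union_left _ (Finset.mem_range.2 hx3)
    refine Finset.mem_union_right _ ?_
    have hx3' : (3 : ℝ) ≤ x := by exact_mod_cast (not_lt.1 hx3)
    have hl1 : 1 ≤ Real.log x := by
      rw [Real.le_log_iff_exp_le (by linarith)]
      have := Real.exp_one_lt_d9
      linarith
    have hlpos : 0 < Real.log x := by linarith
    have hlL : Real.log x ≤ L := Real.log_le_log (by linarith) (by exact_mod_cast hxX)
    push Not at hx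
    obtain ⟨k, hk3, hkA, hx⟩ := hx
    have hkK : k ≤ K := by
      refine Nat.le_floor (hkA.trans ?_)
      exact mul_le_mul_of_nonneg_left (Real.log_le_log hlpos hlL) hA
    rw [Finset.mem_biUnion]
    refine ⟨k, Finset.mem_Icc.2 ⟨hk3, hkK⟩, ?_⟩
    rw [Set.Finite.mem_toFinset]
    refine ⟨hx1, hxX, fun hboth => ?_⟩
    have hcmp : (x : ℝ) / (Real.log x) ^ C' ≤ x / (2 ^ k * (Real.log x) ^ C) := by
      have h2k : (2 : ℝ) ^ k ≤ (Real.log x) ^ (3 * A) := by
        have e1 : (2 : ℝ) ^ k = Real.exp (k * Real.log 2) := by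
          rw [mul_comm, Real.exp_mul, Real.exp_log (by norm_num), Real.rpow_natCast]
        rw [e1, Real.rpow_def_of_pos hlpos]
        refine Real.exp_le_exp.2 ?_
        have e2 := Real.log_two_lt_d9
        have e3 : 0 ≤ Real.log (Real.log x) := Real.log_nonneg hl1
        have e4 : 0 ≤ (k : ℝ) := Nat.cast_nonneg k
        have e5 : (k : ℝ) * Real.log 2 ≤ k * 1 := mul_le_mul_of_nonneg_left (by linarith) e4
        have e6 : A * Real.log (Real.log x) ≤ Real.log (Real.log x) * (3 * A) := by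
          nlinarith [mul_nonneg hA e3]
        linarith
      refine div_le_div_of_nonneg_left (by linarith) (by positivity) ?_
      calc 2 ^ k * (Real.log x) ^ C ≤ (Real.log x) ^ (3 * A) * (Real.log x) ^ C :=
            mul_le_mul_of_nonneg_right h2k (Real.rpow_nonneg hlpos.le _)
        _ = (Real.log x) ^ (3 * A + C) := by rw [← Real.rpow_add hlpos]
        _ ≤ (Real.log x) ^ C' := Real.rpow_le_rpow_of_exponent_le hl1 (by linarith)
    have := hx (hcmp.trans hboth.1)
    linarith [hcmp.trans hboth.2]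
  have hcard := Set.ncard_le_ncard hcov (Finset.finite_toSet _)
  rw [Set.ncard_coe_finset] at hcard
  have hsum : ((Finset.range 3 ∪ (Finset.Icc 3 K).biUnion fun k => (hTfin k).toFinset :
      Finset ℕ).card : ℝ) ≤ 3 + K * (8 ^ K * L ^ C) := by
    have e1 := (Finset.card_union_le (Finset.range 3)
      ((Finset.Icc 3 K).biUnion fun k => (hTfin k).toFinset))
    rw [Finset.card_range] at e1
    have e2 : (((Finset.Icc 3 K).biUnion fun k => (hTfin k).toFinset).card : ℝ) ≤
        K * (8 ^ K * L ^ C) := by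
      refine (Nat.cast_le.2 Finset.card_biUnion_le).trans ?_
      push_cast
      have e3 : ∀ k ∈ Finset.Icc 3 K, (((hTfin k).toFinset.card : ℕ) : ℝ) ≤ 8 ^ K * L ^ C := by
        intro k hk
        obtain ⟨hk3, hkK⟩ := Finset.mem_Icc.1 hk
        have e4 := h k X hk3 hX1
        rw [Set.ncard_eq_toFinset_card _ (hTfin k)] at e4
        refine e4.trans ?_
        refine mul_le_mul_of_nonneg_right ?_ (Real.rpow_nonneg hLpos.le _)
        exact pow_le_pow_right₀ (by norm_num) hkK
      refine (Finset.sum_le_card_nsmul _ _ _ e3).trans ?_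
      rw [nsmul_eq_mul]
      refine mul_le_mul_of_nonneg_right ?_ (by positivity)
      rw [Nat.card_Icc]
      exact_mod_cast (by omega : K + 1 - 3 ≤ K)
    calc ((Finset.range 3 ∪ (Finset.Icc 3 K).biUnion fun k => (hTfin k).toFinset :
        Finset ℕ).card : ℝ) ≤ ((3 + ((Finset.Icc 3 K).biUnion fun k =>
          (hTfin k).toFinset).card : ℕ) : ℝ) := by exact_mod_cast e1
      _ ≤ _ := by
        push_cast
        linarith
  have h8K : (8 : ℝ) ^ K ≤ L ^ (3 * A) := by
    have e1 : (8 : ℝ) ^ K = Real.exp (K * Real.log 8) := by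
      rw [mul_comm, Real.exp_mul, Real.exp_log (by norm_num), Real.rpow_natCast]
    rw [e1, Real.rpow_def_of_pos hLpos]
    refine Real.exp_le_exp.2 ?_
    have e2 : Real.log 8 ≤ 3 := by
      have : Real.log 8 = 3 * Real.log 2 := by
        rw [show (8 : ℝ) = 2 ^ 3 by norm_num, Real.log_pow]
        norm_num
      rw [this]
      have := Real.log_two_lt_d9
      linarith
    have e3 : 0 ≤ Real.log 8 := Real.log_nonneg (by norm_num)
    have e4 : 0 ≤ A * Real.log L := mul_nonneg hA hll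
    calc (K : ℝ) * Real.log 8 ≤ A * Real.log L * 3 := mul_le_mul hKle e2 e3 e4
      _ = _ := by ring
  have hKL : (K : ℝ) ≤ A * L := hKle.trans (mul_le_mul_of_nonneg_left
    ((Real.log_le_sub_one_of_pos hLpos).trans (by linarith)) hA)
  have hLC : 0 < L ^ C := Real.rpow_pos_of_pos hLpos _
  have hL3 : 0 < L ^ (3 * A) := Real.rpow_pos_of_pos hLpos _
  have hL31 : 1 ≤ L ^ (3 * A) := Real.one_le_rpow hL1 (by linarith)
  have hLC1 : 1 ≤ L ^ C := Real.one_le_rpow hL1 hC.le
  have hP : 1 ≤ L ^ (3 * A) * L ^ C := by nlinarith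
  calc _ ≤ ((Finset.range 3 ∪ (Finset.Icc 3 K).biUnion fun k => (hTfin k).toFinset :
      Finset ℕ).card : ℝ) := by exact_mod_cast hcard
    _ ≤ 3 + K * (8 ^ K * L ^ C) := hsum
    _ ≤ 3 + A * L * (L ^ (3 * A) * L ^ C) := by
        have e1 : (8 : ℝ) ^ K * L ^ C ≤ L ^ (3 * A) * L ^ C :=
          mul_le_mul_of_nonneg_right h8K hLC.le
        have e2 := mul_le_mul hKL e1 (by positivity) (by positivity : (0 : ℝ) ≤ A * L)
        linarith
    _ ≤ (3 + A) * L * (L ^ (3 * A) * L ^ C) := by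
        have e1 : 3 * 1 ≤ 3 * (L * (L ^ (3 * A) * L ^ C)) := by
          refine mul_le_mul_of_nonneg_left ?_ (by norm_num)
          nlinarith
        linarith
    _ ≤ L * L * (L ^ (3 * A) * L ^ C) := by
        refine mul_le_mul_of_nonneg_right ?_ (by positivity)
        exact mul_le_mul_of_nonneg_right (by linarith) hLpos.le
    _ = L ^ C' := by
        rw [hC', show C + 3 * A + 2 = 2 + (3 * A + C) by ring, Real.rpow_add hLpos,
          Real.rpow_two, Real.rpow_add hLpos]
        ring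

end Pool.Agent.Results.MP_bf4c7f_nt.ThreePrimes
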